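import Pool.Agent.E8helper11.FZ.Base

/-!
# Percolation with constant freezing: the lower bound
-/

set_option autoImplicit false

namespace Pool.Agent.E8helper36.FZ

open Finset Pool.Agent.E8helper11.FZ

section

variable {V : Type} [Fintype V] [DecidableEq V]

theorem mem_cluster (O : Finset (Sym2 V)) (v w : V) :
    w ∈ cluster O v ↔ (SimpleGraph.fromEdgeSet (O : Set (Sym2 V))).Reachable v w := by
  unfold cluster
  simp

theorem cluster_eq_iff (O : Finset (Sym2 V)) (v w : V) :
    cluster O v = cluster O w ↔ (SimpleGraph.fromEdgeSet (O : Set (Sym2 V))).Reachable v w := by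
  constructor
  · intro h
    have : w ∈ cluster O v := by rw [h]; exact mem_cluster_self O w
    exact (mem_cluster O v w).1 this
  · intro h
    ext u
    rw [mem_cluster, mem_cluster]
    exact ⟨fun h1 => h.symm.trans h1, fun h1 => h.trans h1⟩

theorem cluster_of_mem {O : Finset (Sym2 V)} {v w : V} (h : w ∈ cluster O v) :
    cluster O w = cluster O v := by
  rw [mem_cluster] at h
  exact (cluster_eq_iff O w v).2 h.symm

theorem cluster_mono {O O' : Finset (Sym2 V)} (h : O ⊆ O') {v w : V}
    (hr : cluster O v = cluster O w) : cluster O' v = cluster O' w := by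
  rw [cluster_eq_iff] at hr ⊢
  exact hr.mono (SimpleGraph.fromEdgeSet_mono (by exact_mod_cast h))

theorem cluster_insert (O : Finset (Sym2 V)) (x y : V) (hxy : x ≠ y) :
    cluster (insert s(x, y) O) x = cluster (insert s(x, y) O) y := by
  rw [cluster_eq_iff]
  apply SimpleGraph.Adj.reachable
  rw [SimpleGraph.fromEdgeSet_adj]
  exact ⟨by simp, hxy⟩

theorem cluster_empty (v w : V) (h : cluster (∅ : Finset (Sym2 V)) v = cluster ∅ w) : v = w := by
  rw [cluster_eq_iff] at h
  simpa using h

/-- Cluster counts over a family of vertices. -/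
noncomputable def cnt {ι : Type} [Fintype ι] (g : ι → V) (O : Finset (Sym2 V)) : ℕ :=
  (univ.image fun x => cluster O (g x)).card

theorem image_biUnion {ι : Type} [Fintype ι] (g : ι → V) {O O' : Finset (Sym2 V)} (h : O ⊆ O') :
    (univ.image fun x => cluster O' (g x)) =
      (univ.image fun x => cluster O (g x)).image fun C => C.biUnion (cluster O') := by
  rw [image_image]
  congr 1
  funext x
  simp only [Function.comp_apply]
  ext u
  rw [mem_biUnion]
  constructor
  · intro hu
    exact ⟨g x, mem_cluster_self _ _, hu⟩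
  · rintro ⟨w, hw, hu⟩
    have h1 := cluster_mono h (cluster_of_mem hw)
    rwa [← h1]

theorem cnt_le {ι : Type} [Fintype ι] (g : ι → V) {O O' : Finset (Sym2 V)} (h : O ⊆ O') :
    cnt g O' ≤ cnt g O := by
  unfold cnt
  rw [image_biUnion g h]
  exact card_image_le

theorem cnt_lt {ι : Type} [Fintype ι] (g : ι → V) {O O' : Finset (Sym2 V)} (h : O ⊆ O')
    (x y : ι) (h1 : cluster O (g x) ≠ cluster O (g y)) (h2 : cluster O' (g x) = cluster O' (g y)) :
    cnt g O' < cnt g O := by
  refine lt_of_le_of_ne (cnt_le g h) ?_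
  intro he
  unfold cnt at he
  rw [image_biUnion g h, card_image_iff] at he
  apply h1
  apply he
  · simp
  · simp
  · simp only
    have key : ∀ z, (cluster O (g z)).biUnion (cluster O') = cluster O' (g z) := by
      intro z
      ext u
      rw [mem_biUnion]
      constructor
      · rintro ⟨w, hw, hu⟩
        have h1 := cluster_mono h (cluster_of_mem hw)
        rwa [← h1]
      · intro hu
        exact ⟨g z, mem_cluster_self _ _, hu⟩
    rw [key, key, h2]

end

section

variable {T m : ℕ}

/-- The vertices of the cliques. -/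
abbrev P (T m : ℕ) : Type := Fin (2 * T + 1) × Fin (m + 1)

/-- The inclusion. -/
abbrev gi (T m : ℕ) : P T m → W T m := Sum.inl

/-- The cluster of a vertex of the cliques. -/
noncomputable abbrev cl (O : Finset (Sym2 (W T m))) (x : P T m) : Finset (W T m) :=
  cluster O (Sum.inl x)

/-- The number of clusters of the chain. -/
noncomputable abbrev rr (O : Finset (Sym2 (W T m))) : ℕ := cnt (gi T m) O

theorem rr_empty : rr (∅ : Finset (Sym2 (W T m))) = (2 * T + 1) * (m + 1) := by
  unfold rr cnt
  rw [card_image_of_injective]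
  · simp
  · intro x y hxy
    have := cluster_empty _ _ hxy
    simpa using this

theorem rr_pos (O : Finset (Sym2 (W T m))) : 1 ≤ rr O := by
  unfold rr cnt
  rw [Nat.one_le_iff_ne_zero, ← Nat.pos_iff_ne_zero, card_pos]
  exact ⟨_, mem_image_of_mem _ (mem_univ (0, 0))⟩

theorem warm_card_le (O : Finset (Sym2 (W T m))) :
    (warmClusters (⟨O, ∅⟩ : State (W T m))).card ≤ rr O + 2 := by
  have h : warmClusters (⟨O, ∅⟩ : State (W T m)) ⊆
      (univ.image fun x => cluster O (gi T m x)) ∪
        {cluster O (Sum.inr false), cluster O (Sum.inr true)} := by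
    intro C hC
    unfold warmClusters at hC
    rw [mem_image] at hC
    obtain ⟨v, -, rfl⟩ := hC
    simp only at *
    rw [mem_union]
    rcases v with x | b
    · left
      exact mem_image_of_mem _ (mem_univ x)
    · right
      cases b <;> simp
  refine (card_le_card h).trans ((card_union_le _ _).trans ?_)
  exact Nat.add_le_add_left card_le_two _

/-- After the freezing of both hubs, the pendant edges remain closed. -/
theorem expect_frozen {α : ℝ} (hα : 0 < α) (n : ℕ) :
    ∀ s : State (W T m), hub T m 0 ∈ s.frozen → hub T m (Fin.last (2 * T)) ∈ s.frozen →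
      e1 T m ∉ s.openE → e2 T m ∉ s.openE →
      expect (Gr T m) α n s ((Dn T m).indicator 1) = 1 := by
  induction n with
  | zero =>
    intro s _ _ h1 h2
    show (Dn T m).indicator 1 s.openE = (1 : ℝ)
    rw [Set.indicator_of_mem]
    · rfl
    · exact ⟨h1, h2⟩
  | succ n ih =>
    intro s hf1 hf2 h1 h2
    by_cases hw : warmClusters s = ∅
    · rw [E8helper11.FZ.expect, if_pos hw, Set.indicator_of_mem]
      · rfl
      · exact ⟨h1, h2⟩
    · rw [expect_succ _ _ _ _ hw]
      have hd := denom_pos (Gr T m) hα s hw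
      rw [div_eq_one_iff_eq hd.ne']
      congr 1
      · rw [sum_congr rfl (g := fun _ => (1 : ℝ))]
        · simp
        · intro e he
          rw [mem_canOpen] at he
          apply ih
          · exact hf1
          · exact hf2
          · simp only [mem_insert, not_or]
            refine ⟨?_, h1⟩
            intro h
            refine he.2.2 (hub T m 0) ?_ hf1
            rw [← h]
            unfold e1
            simp
          · simp only [mem_insert, not_or]
            refine ⟨?_, h2⟩
            intro h
            refine he.2.2 (hub T m (Fin.last (2 * T))) ?_ hf2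
            rw [← h]
            unfold e2
            simp
      · congr 1
        rw [sum_congr rfl (g := fun _ => (1 : ℝ))]
        · simp
        · intro C _
          apply ih
          · exact mem_union_left _ hf1
          · exact mem_union_left _ hf2
          · exact h1
          · exact h2

open Classical in
/-- The closed edges joining different clusters. -/
noncomputable def Is (O : Finset (Sym2 (W T m))) : Finset (Sym2 (W T m)) :=
  (canOpen (Gr T m) ⟨O, ∅⟩).filter fun e => ∃ x y : P T m, e = s(Sum.inl x, Sum.inl y) ∧ cl O x ≠ cl O y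

open Classical in
/-- The closed edges inside clusters. -/
noncomputable def Cs (O : Finset (Sym2 (W T m))) : Finset (Sym2 (W T m)) :=
  (canOpen (Gr T m) ⟨O, ∅⟩).filter fun e =>
    (¬ ∃ x y : P T m, e = s(Sum.inl x, Sum.inl y) ∧ cl O x ≠ cl O y) ∧ e ≠ e1 T m ∧ e ≠ e2 T m

theorem can_card_le (O : Finset (Sym2 (W T m))) :
    (canOpen (Gr T m) ⟨O, ∅⟩).card ≤ (Is O).card + (Cs O).card + 2 := by
  have h : canOpen (Gr T m) ⟨O, ∅⟩ ⊆ (Is O ∪ Cs O) ∪ {e1 T m, e2 T m} := by
    intro e he
    simp only [mem_union, Is, Cs, mem_filter, mem_insert, mem_singleton]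
    tauto
  refine (card_le_card h).trans ((card_union_le _ _).trans ?_)
  exact Nat.add_le_add (card_union_le _ _) card_le_two

theorem disj (O : Finset (Sym2 (W T m))) : Disjoint (Is O) (Cs O) := by
  rw [disjoint_left]
  intro e h1 h2
  simp only [Is, Cs, mem_filter] at h1 h2
  exact h2.2.1 h1.2

theorem inl_ne_e1 (x y : P T m) : s((Sum.inl x : W T m), Sum.inl y) ≠ e1 T m := by
  intro h
  unfold e1 hub at h
  rw [Sym2.eq_iff] at h
  rcases h with ⟨_, h⟩ | ⟨h, _⟩ <;> cases h

theorem inl_ne_e2 (x y : P T m) : s((Sum.inl x : W T m), Sum.inl y) ≠ e2 T m := by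
  intro h
  unfold e2 hub at h
  rw [Sym2.eq_iff] at h
  rcases h with ⟨_, h⟩ | ⟨h, _⟩ <;> cases h

/-- The number of edges between the clusters. -/
theorem Is_card (hbd : S_BD) (O : Finset (Sym2 (W T m))) (hr : 2 ≤ rr O) :
    rr O * m ≤ 2 * (Is O).card := by
  classical
  -- the pairs
  set Q : Finset (P T m × P T m) := univ.filter fun p =>
    (Gr T m).Adj (Sum.inl p.1) (Sum.inl p.2) ∧ cl O p.1 ≠ cl O p.2 with hQ
  have h1 : Q.card ≤ 2 * (Is O).card := by
    apply card_le_mul_card_image_of_maps_to (f := fun p : P T m × P T m =>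
      (s(Sum.inl p.1, Sum.inl p.2) : Sym2 (W T m)))
    · intro p hp
      rw [hQ, mem_filter] at hp
      unfold Is
      rw [mem_filter, mem_canOpen]
      refine ⟨⟨?_, ?_, ?_⟩, p.1, p.2, rfl, hp.2.2⟩
      · rw [SimpleGraph.mem_edgeSet]
        exact hp.2.1
      · intro hO
        apply hp.2.2
        show cluster O _ = cluster O _
        rw [cluster_eq_iff]
        apply SimpleGraph.Adj.reachable
        rw [SimpleGraph.fromEdgeSet_adj]
        exact ⟨by exact_mod_cast hO, hp.2.1.ne⟩
      · intro v _
        simp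
    · intro b _
      by_cases hne : (Q.filter fun p => (s(Sum.inl p.1, Sum.inl p.2) : Sym2 (W T m)) = b) = ∅
      · rw [hne]; simp
      · obtain ⟨p, hp⟩ := nonempty_iff_ne_empty.2 hne
        rw [mem_filter] at hp
        have : (Q.filter fun p => (s(Sum.inl p.1, Sum.inl p.2) : Sym2 (W T m)) = b) ⊆
            {p, (p.2, p.1)} := by
          intro q hq
          rw [mem_filter] at hq
          have h := hq.2.trans hp.2.symm
          rw [Sym2.eq_iff] at h
          rw [mem_insert, mem_singleton]
          rcases h with ⟨ha, hb⟩ | ⟨ha, hb⟩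
          · left
            exact Prod.ext (Sum.inl_injective ha) (Sum.inl_injective hb)
          · right
            exact Prod.ext (Sum.inl_injective ha) (Sum.inl_injective hb)
        exact (card_le_card this).trans card_le_two
  refine le_trans ?_ h1
  rw [mul_comm]
  have h2 : m * rr O ≤ Q.card := by
    unfold rr cnt
    refine mul_card_image_le_card_of_maps_to (f := fun p : P T m × P T m => cl O p.1) ?_ m ?_
    · intro p _
      exact mem_image_of_mem _ (mem_univ p.1)
    · intro C hC
      have hC' := hC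
      rw [mem_image] at hC
      obtain ⟨x0, -, hx0⟩ := hC
      have hex : ∃ y0 : P T m, cl O y0 ≠ C := by
        by_contra hcon
        push Not at hcon
        have : (univ.image fun x => cluster O (gi T m x)) ⊆ {C} := by
          intro D hD
          rw [mem_image] at hD
          obtain ⟨y, -, rfl⟩ := hD
          rw [mem_singleton]
          exact hcon y
        have := card_le_card this
        rw [card_singleton] at this
        unfold rr cnt at hr
        omega
      obtain ⟨y0, hy0⟩ := hex
      have hb := hbd T m (univ.filter fun x => cl O x = C) ⟨x0, by simpa using hx0⟩ (by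
        intro h
        have : y0 ∈ (univ.filter fun x => cl O x = C) := by rw [h]; simp
        rw [mem_filter] at this
        exact hy0 this.2)
      refine hb.trans (card_le_card ?_)
      intro p hp
      simp only [mem_filter, mem_product, mem_compl, mem_univ, true_and] at hp
      rw [mem_filter, hQ, mem_filter]
      refine ⟨⟨mem_univ _, hp.2, ?_⟩, hp.1.1⟩
      rw [hp.1.1]
      exact fun h => hp.1.2 h.symm
  exact h2

/-- The lower bound as a function of the number of clusters. -/
noncomputable def q (α : ℝ) (m r : ℕ) : ℝ :=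
  α / (2 + 3 * α) * ∏ ρ ∈ Icc 2 r, (1 + 2 * (2 + α * ((ρ : ℕ) + 2)) / ((ρ : ℕ) * m))⁻¹

theorem fac_pos {α : ℝ} (hα : 0 < α) (m ρ : ℕ) :
    0 < 1 + 2 * (2 + α * ((ρ : ℝ) + 2)) / ((ρ : ℝ) * m) := by
  positivity

theorem q_pos {α : ℝ} (hα : 0 < α) (m r : ℕ) : 0 < q α m r := by
  unfold q
  apply mul_pos
  · positivity
  · exact prod_pos fun ρ _ => inv_pos.2 (fac_pos hα m ρ)

theorem q_one (α : ℝ) (m : ℕ) : q α m 1 = α / (2 + 3 * α) := by
  unfold q
  simp

theorem q_succ {α : ℝ} (hα : 0 < α) (m r : ℕ) (hr : 1 ≤ r) :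
    q α m (r + 1) * (1 + 2 * (2 + α * (((r + 1 : ℕ) : ℝ) + 2)) / (((r + 1 : ℕ) : ℝ) * m)) =
      q α m r := by
  unfold q
  rw [Finset.prod_Icc_succ_top (by omega)]
  have := (fac_pos hα m (r + 1)).ne'
  rw [mul_assoc, mul_assoc, inv_mul_cancel₀ this, mul_one]

theorem q_le_one {α : ℝ} (hα : 0 < α) (m r : ℕ) : q α m r ≤ 1 := by
  unfold q
  have h1 : α / (2 + 3 * α) ≤ 1 := by
    rw [div_le_one (by positivity)]
    linarith
  have h2 : ∏ ρ ∈ Icc 2 r, (1 + 2 * (2 + α * ((ρ : ℕ) + 2)) / ((ρ : ℝ) * m))⁻¹ ≤ 1 := by
    apply prod_le_one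
    · intro ρ _
      exact (inv_pos.2 (fac_pos hα m ρ)).le
    · intro ρ _
      apply inv_le_one_of_one_le₀
      have : 0 ≤ 2 * (2 + α * ((ρ : ℝ) + 2)) / ((ρ : ℝ) * m) := by positivity
      linarith
  have h3 : 0 ≤ ∏ ρ ∈ Icc 2 r, (1 + 2 * (2 + α * ((ρ : ℕ) + 2)) / ((ρ : ℝ) * m))⁻¹ :=
    prod_nonneg fun ρ _ => (inv_pos.2 (fac_pos hα m ρ)).le
  exact mul_le_one₀ h1 h3 h2

theorem q_anti {α : ℝ} (hα : 0 < α) (m : ℕ) {r r' : ℕ} (h0 : 1 ≤ r) (h : r ≤ r') :
    q α m r' ≤ q α m r := by
  induction r', h using Nat.le_induction with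
  | base => exact le_rfl
  | succ k hk ih =>
    refine le_trans ?_ ih
    rw [← q_succ hα m k (h0.trans hk)]
    have h1 := q_pos hα m (k + 1)
    have h2 : 0 ≤ 2 * (2 + α * (((k + 1 : ℕ) : ℝ) + 2)) / (((k + 1 : ℕ) : ℝ) * m) := by positivity
    nlinarith

theorem key (hbd : S_BD) (hm : 1 ≤ m) {α : ℝ} (hα : 0 < α) (n : ℕ) :
    ∀ O : Finset (Sym2 (W T m)), e1 T m ∉ O → e2 T m ∉ O →
      q α m (rr O) ≤ E8helper11.FZ.expect (Gr T m) α n ⟨O, ∅⟩ ((Dn T m).indicator 1) := by
  induction n with
  | zero =>
    intro O h1 h2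
    show _ ≤ (Dn T m).indicator 1 O
    rw [Set.indicator_of_mem]
    · exact q_le_one hα m _
    · exact ⟨h1, h2⟩
  | succ n ih =>
    intro O h1 h2
    have hw : warmClusters (⟨O, ∅⟩ : State (W T m)) ≠ ∅ := by
      rw [Ne, warm_empty_iff]
      intro h
      exact absurd (h (Sum.inr true)) (by simp)
    rw [expect_succ _ _ _ _ hw]
    have hd := denom_pos (Gr T m) hα _ hw
    rw [le_div_iff₀ hd]
    have hnn : ∀ s : State (W T m),
        0 ≤ E8helper11.FZ.expect (Gr T m) α n s ((Dn T m).indicator 1) :=
      fun s => prob_nonneg (Gr T m) hα n s (Dn T m)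
    -- the sum over the edges
    have hmono : ∀ e, rr (insert e O) ≤ rr O := fun e => cnt_le _ (subset_insert _ _)
    have hS1 : ((Is O).card : ℝ) * q α m (rr O - 1) + (Cs O).card * q α m (rr O) ≤
        ∑ e ∈ canOpen (Gr T m) ⟨O, ∅⟩,
          E8helper11.FZ.expect (Gr T m) α n ⟨insert e O, ∅⟩ ((Dn T m).indicator 1) := by
      have hsub : Is O ∪ Cs O ⊆ canOpen (Gr T m) ⟨O, ∅⟩ :=
        union_subset (filter_subset _ _) (filter_subset _ _)
      refine le_trans ?_ (sum_le_sum_of_subset_of_nonneg hsub fun e _ _ => hnn _)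
      rw [sum_union (disj O)]
      apply add_le_add
      · rw [← nsmul_eq_mul]
        apply card_nsmul_le_sum
        intro e he
        unfold Is at he
        rw [mem_filter] at he
        obtain ⟨-, x, y, rfl, hxy⟩ := he
        have hlt : rr (insert s(Sum.inl x, Sum.inl y) O) < rr O := by
          apply cnt_lt (gi T m) (subset_insert _ _) x y hxy
          apply cluster_insert
          intro h
          apply hxy
          rw [show x = y from Sum.inl_injective h]
        refine le_trans ?_ (ih _ ?_ ?_)
        · exact q_anti hα m (rr_pos _) (by omega)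
        · simp only [mem_insert, not_or]
          exact ⟨fun h => inl_ne_e1 x y h.symm, h1⟩
        · simp only [mem_insert, not_or]
          exact ⟨fun h => inl_ne_e2 x y h.symm, h2⟩
      · rw [← nsmul_eq_mul]
        apply card_nsmul_le_sum
        intro e he
        unfold Cs at he
        rw [mem_filter] at he
        refine le_trans ?_ (ih _ ?_ ?_)
        · exact q_anti hα m (rr_pos _) (hmono e)
        · simp only [mem_insert, not_or]
          exact ⟨fun h => he.2.2.1 h.symm, h1⟩
        · simp only [mem_insert, not_or]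
          exact ⟨fun h => he.2.2.2 h.symm, h2⟩
    have hD : ((canOpen (Gr T m) ⟨O, ∅⟩).card : ℝ) +
        α * (warmClusters (⟨O, ∅⟩ : State (W T m))).card ≤
        (Is O).card + (Cs O).card + (2 + α * (rr O + 2)) := by
      have ha : ((canOpen (Gr T m) ⟨O, ∅⟩).card : ℝ) ≤ (Is O).card + (Cs O).card + 2 := by
        exact_mod_cast can_card_le O
      have hb : ((warmClusters (⟨O, ∅⟩ : State (W T m))).card : ℝ) ≤ rr O + 2 := by
        exact_mod_cast warm_card_le O
      nlinarith
    have hq := q_pos hα m (rr O)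
    have hS2nn : 0 ≤ ∑ C ∈ warmClusters (⟨O, ∅⟩ : State (W T m)),
        E8helper11.FZ.expect (Gr T m) α n ⟨O, ∅ ∪ C⟩ ((Dn T m).indicator 1) :=
      sum_nonneg fun C _ => hnn _
    have hD' := mul_le_mul_of_nonneg_left hD hq.le
    refine hD'.trans ?_
    rcases Nat.lt_or_ge (rr O) 2 with hr | hr
    · -- one cluster
      have hr1 : rr O = 1 := le_antisymm (by omega) (rr_pos O)
      have hall : ∀ x y : P T m, cl O x = cl O y := by
        intro x y
        unfold rr cnt at hr1
        rw [card_eq_one] at hr1
        obtain ⟨C, hC⟩ := hr1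
        have hx : cluster O (gi T m x) ∈ univ.image fun x => cluster O (gi T m x) :=
          mem_image_of_mem _ (mem_univ x)
        have hy : cluster O (gi T m y) ∈ univ.image fun x => cluster O (gi T m x) :=
          mem_image_of_mem (fun x => cluster O (gi T m x)) (mem_univ y)
        rw [hC, mem_singleton] at hx hy
        exact hx.trans hy.symm
      have hIs : Is O = ∅ := by
        unfold Is
        rw [filter_eq_empty_iff]
        rintro e - ⟨x, y, -, hxy⟩
        exact hxy (hall x y)
      have hS2 : 1 ≤ ∑ C ∈ warmClusters (⟨O, ∅⟩ : State (W T m)),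
          E8helper11.FZ.expect (Gr T m) α n ⟨O, ∅ ∪ C⟩ ((Dn T m).indicator 1) := by
        have hC : cluster O (hub T m 0) ∈ warmClusters (⟨O, ∅⟩ : State (W T m)) := by
          unfold warmClusters
          exact mem_image_of_mem _ (by simp)
        refine le_trans (le_of_eq ?_) (single_le_sum (fun C _ => hnn _) hC)
        symm
        apply expect_frozen hα
        · exact mem_union_right _ (mem_cluster_self _ _)
        · apply mem_union_right
          have h5 : cluster O (hub T m 0) = cluster O (hub T m (Fin.last (2 * T))) :=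
            hall (0, 0) (Fin.last (2 * T), 0)
          rw [h5]
          exact mem_cluster_self _ _
        · exact h1
        · exact h2
      rw [hIs] at hS1 ⊢
      simp only [card_empty, Nat.cast_zero, zero_mul, zero_add] at hS1 ⊢
      rw [hr1, q_one] at hS1 ⊢
      have e : α / (2 + 3 * α) * (2 + α * (((1 : ℕ) : ℝ) + 2)) = α := by
        push_cast
        field_simp
        ring
      have h5 : α * 1 ≤ α * ∑ C ∈ warmClusters (⟨O, ∅⟩ : State (W T m)),
          E8helper11.FZ.expect (Gr T m) α n ⟨O, ∅ ∪ C⟩ ((Dn T m).indicator 1) :=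
        mul_le_mul_of_nonneg_left hS2 hα.le
      rw [mul_add, e]
      linarith
    · -- several clusters
      have hI := Is_card hbd O hr
      have hI' : (rr O : ℝ) * m ≤ 2 * (Is O).card := by exact_mod_cast hI
      obtain ⟨k, hk⟩ : ∃ k, rr O = k + 1 := ⟨rr O - 1, by omega⟩
      have hs := q_succ hα m k (by omega)
      rw [← hk] at hs
      have hk' : rr O - 1 = k := by omega
      rw [hk', ← hs] at hS1
      have hm' : (1 : ℝ) ≤ m := by exact_mod_cast hm
      have hr' : (2 : ℝ) ≤ rr O := by exact_mod_cast hr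
      have hpos : (0 : ℝ) < rr O * m := by positivity
      have h6 : 2 + α * ((rr O : ℝ) + 2) ≤
          (Is O).card * (2 * (2 + α * ((rr O : ℝ) + 2)) / (rr O * m)) := by
        rw [← mul_div_assoc, le_div_iff₀ hpos]
        have h7 : 0 < 2 + α * ((rr O : ℝ) + 2) := by positivity
        nlinarith
      have h8 := mul_le_mul_of_nonneg_left h6 hq.le
      have h9 : 0 ≤ α * ∑ C ∈ warmClusters (⟨O, ∅⟩ : State (W T m)),
          E8helper11.FZ.expect (Gr T m) α n ⟨O, ∅ ∪ C⟩ ((Dn T m).indicator 1) :=
        mul_nonneg hα.le hS2nn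
      nlinarith

end

/-- The lower bound. -/
theorem lo (h : S_BD) : S_LO := by
  intro T m _ hm α hα
  have := key (T := T) h hm hα (steps (Gr T m)) ∅ (by simp) (by simp)
  rw [rr_empty] at this
  exact this

end Pool.Agent.E8helper36.FZ
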